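import Mathlib

/-!
Lemmas on permanents of sign matrices (the same proofs as in the proof of the frozen statement S08907).
-/

set_option autoImplicit false

namespace Pool.Agent.MP_596cf1_co

open Finset Matrix Equiv

/-- Laplace expansion of the permanent along column zero. -/
theorem per_col_zero {n : ℕ} (A : Matrix (Fin (n + 1)) (Fin (n + 1)) ℤ) :
    A.permanent = ∑ i, A i 0 * (A.submatrix i.succAbove Fin.succ).permanent := by
  rw [Matrix.permanent, Finset.univ_perm_fin_succ, ← Finset.univ_product_univ]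
  simp only [Finset.sum_map, Equiv.toEmbedding_apply, Finset.sum_product]
  refine Finset.sum_congr rfl fun i _ => Fin.cases ?_ (fun i => ?_) i
  · simp only [Fin.prod_univ_succ, Matrix.permanent, Finset.mul_sum,
      Equiv.Perm.decomposeFin_symm_apply_zero, Equiv.swap_self, 
      Equiv.Perm.decomposeFin_symm_apply_succ, Fin.succAbove_zero, Equiv.coe_refl, id,
      Matrix.submatrix_apply]
  · rw [← Matrix.permanent_permute_cols (Fin.cycleRange i), Matrix.permanent, Finset.mul_sum]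
    refine Finset.sum_congr rfl fun σ _ => ?_
    simp only [Fin.prod_univ_succ, Matrix.submatrix_apply, Fin.succAbove_cycleRange,
        Equiv.Perm.decomposeFin_symm_apply_zero, Equiv.Perm.decomposeFin_symm_apply_succ, id]

theorem per_col {n : ℕ} (A : Matrix (Fin (n + 1)) (Fin (n + 1)) ℤ) (j : Fin (n + 1)) :
    A.permanent = ∑ i, A i j * (A.submatrix i.succAbove j.succAbove).permanent := by
  rw [← Matrix.permanent_permute_rows (Fin.cycleRange j).symm, per_col_zero]
  refine Finset.sum_congr rfl fun i _ => ?_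
  simp only [Matrix.submatrix_apply, id, Fin.cycleRange_symm_zero, Matrix.submatrix_submatrix]
  congr 2
  ext a b
  simp [Matrix.submatrix_apply, Fin.cycleRange_symm_succ]

theorem per_row_zero {n : ℕ} (A : Matrix (Fin (n + 1)) (Fin (n + 1)) ℤ) :
    A.permanent = ∑ j, A 0 j * (A.submatrix Fin.succ j.succAbove).permanent := by
  rw [← Matrix.permanent_transpose, per_col_zero]
  refine Finset.sum_congr rfl fun i _ => ?_
  rw [← Matrix.permanent_transpose]
  simp only [Matrix.transpose_apply, Matrix.transpose_submatrix, Matrix.transpose_transpose]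

/-- the sign matrix of a board given by column heights -/
def brd (n : ℕ) (b : Fin n → ℕ) : Matrix (Fin n) (Fin n) ℤ :=
  fun i j => if (i : ℕ) < b j then -1 else 1

theorem brd_flip {n : ℕ} (b : Fin (n + 1) → ℕ) (i : Fin (n + 1)) (hb : Monotone b)
    (hi : 1 ≤ b i) (hin : b i ≤ n + 1) (h0 : ∀ j < i, b j = 0) :
    (brd (n + 1) b).permanent = (brd (n + 1) (Function.update b i (b i - 1))).permanent
      - 2 * (brd n (fun j => b (i.succAbove j) - 1)).permanent := by
  rw [per_col (brd (n + 1) b) i, per_col (brd (n + 1) (Function.update b i (b i - 1))) i]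
  have hsub : ∀ k : Fin (n + 1),
      (brd (n + 1) (Function.update b i (b i - 1))).submatrix k.succAbove i.succAbove
      = (brd (n + 1) b).submatrix k.succAbove i.succAbove := by
    intro k
    ext a c
    simp only [Matrix.submatrix_apply, brd]
    rw [Function.update_of_ne (Fin.succAbove_ne i c)]
  simp only [hsub]
  have hr : b i - 1 < n + 1 := by omega
  have hminor : (brd (n + 1) b).submatrix (⟨b i - 1, hr⟩ : Fin (n + 1)).succAbove i.succAbove
      = brd n (fun j => b (i.succAbove j) - 1) := by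
    ext a c
    simp only [Matrix.submatrix_apply, brd]
    have key : (((⟨b i - 1, hr⟩ : Fin (n + 1)).succAbove a : Fin (n + 1)) : ℕ) < b (i.succAbove c)
        ↔ (a : ℕ) < b (i.succAbove c) - 1 := by
      rcases lt_or_ge (i.succAbove c) i with hlt | hge
      · rw [h0 _ hlt]; simp
      · have hge' : b i ≤ b (i.succAbove c) := hb hge
        generalize b (i.succAbove c) = t at hge'
        by_cases h1 : (a : ℕ) < b i - 1
        · have h2 : ((⟨b i - 1, hr⟩ : Fin (n + 1)).succAbove a) = a.castSucc :=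
            Fin.succAbove_of_castSucc_lt _ _ (by simpa [Fin.lt_def] using h1)
          rw [h2]
          simp only [Fin.val_castSucc]
          omega
        · have h2 : ((⟨b i - 1, hr⟩ : Fin (n + 1)).succAbove a) = a.succ :=
            Fin.succAbove_of_le_castSucc _ _ (by simp only [Fin.le_def, Fin.val_castSucc]; omega)
          rw [h2]
          simp only [Fin.val_succ]
          omega
    simp only [key]
  rw [← hminor]
  rw [← sub_eq_zero]
  have : ∀ k : Fin (n + 1), brd (n + 1) b k i * ((brd (n + 1) b).submatrix k.succAbove i.succAbove).permanent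
     = brd (n + 1) (Function.update b i (b i - 1)) k i * ((brd (n + 1) b).submatrix k.succAbove i.succAbove).permanent
      + (if k = ⟨b i - 1, hr⟩ then
          - 2 * ((brd (n + 1) b).submatrix k.succAbove i.succAbove).permanent else 0) := by
    intro k
    simp only [brd, Function.update_self]
    by_cases hk : k = ⟨b i - 1, hr⟩
    · subst hk
      have h1 : b i - 1 < b i := by omega
      have h2 : ¬ (b i - 1 < b i - 1) := by omega
      simp only [h1, h2, if_true, if_false]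
      ring
    · have hk' : (k : ℕ) ≠ b i - 1 := fun h => hk (Fin.ext h)
      rw [if_neg hk]
      by_cases h3 : (k : ℕ) < b i
      · have h4 : (k : ℕ) < b i - 1 := by omega
        simp [h3, h4]
      · have h4 : ¬ (k : ℕ) < b i - 1 := by omega
        simp [h3, h4]
  rw [Finset.sum_congr rfl (fun k _ => this k), Finset.sum_add_distrib, Finset.sum_ite_eq']
  simp


def dsc (m : ℕ) (x : ℤ) : ℤ := ∏ j ∈ Finset.range m, (x - j)

theorem dsc_succ (m : ℕ) (x : ℤ) : dsc (m + 1) x = dsc m x * (x - m) := by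
  simp [dsc, Finset.prod_range_succ]

theorem dsc_succ' (m : ℕ) (x : ℤ) : dsc (m + 1) (x + 1) = (x + 1) * dsc m x := by
  induction m generalizing x with
  | zero => simp [dsc]
  | succ m ih =>
    rw [dsc_succ, ih, dsc_succ]
    push_cast
    ring

theorem dsc_diff (m : ℕ) (x : ℤ) : dsc (m + 1) (x + 1) - dsc (m + 1) x = (m + 1) * dsc m x := by
  rw [dsc_succ', dsc_succ]; ring

theorem tele (f : ℤ → ℤ) (q : ℕ) :
    ∑ x ∈ Finset.range q, (-1 : ℤ) ^ x * (f ((x : ℤ) + 1) + f x) = f 0 - (-1) ^ q * f q := by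
  induction q with
  | zero => simp
  | succ q ih =>
    rw [Finset.sum_range_succ, ih]
    push_cast
    ring

theorem dsc_zero_left (x : ℤ) : dsc 0 x = 1 := by simp [dsc]

theorem dsc_at_zero (m : ℕ) : dsc (m + 1) 0 = 0 := by
  unfold dsc
  exact Finset.prod_eq_zero (Finset.mem_range.2 (Nat.succ_pos m)) (by simp)

theorem dvd_dsc (m : ℕ) (q : ℤ) : q ∣ dsc (m + 1) q := by
  unfold dsc
  have := Finset.dvd_prod_of_mem (fun j : ℕ => (q - (j : ℤ))) (Finset.mem_range.2 (Nat.succ_pos m))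
  simpa using this

theorem base_sum (q : ℕ) (hq : Odd q) (m : ℕ) :
    (m.factorial : ℤ) ≡ (-2) ^ m * ∑ x ∈ Finset.range q, (-1 : ℤ) ^ x * dsc m x [ZMOD q] := by
  induction m with
  | zero =>
    simp only [dsc_zero_left, mul_one, pow_zero, one_mul, Nat.factorial_zero, Nat.cast_one]
    have h := tele (fun _ => 1) q
    simp only [hq.neg_one_pow] at h
    have h2 : ∑ x ∈ Finset.range q, (-1 : ℤ) ^ x = 1 := by
      have h3 : ∑ x ∈ Finset.range q, (-1 : ℤ) ^ x * (1 + 1) = 2 * ∑ x ∈ Finset.range q, (-1 : ℤ) ^ x := by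
        rw [Finset.mul_sum]; exact Finset.sum_congr rfl fun _ _ => by ring
      rw [h3] at h; linarith
    rw [h2]
  | succ m ih =>
    have h := tele (dsc (m + 1)) q
    rw [hq.neg_one_pow, dsc_at_zero] at h
    have h2 : ∑ x ∈ Finset.range q, (-1 : ℤ) ^ x * (dsc (m + 1) ((x : ℤ) + 1) + dsc (m + 1) x)
        = 2 * ∑ x ∈ Finset.range q, (-1 : ℤ) ^ x * dsc (m + 1) x
          + (m + 1) * ∑ x ∈ Finset.range q, (-1 : ℤ) ^ x * dsc m x := by
      rw [Finset.mul_sum, Finset.mul_sum, ← Finset.sum_add_distrib]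
      refine Finset.sum_congr rfl fun x _ => ?_
      have := dsc_diff m x
      linear_combination (-1 : ℤ) ^ x * this
    rw [h2] at h
    set H1 := ∑ x ∈ Finset.range q, (-1 : ℤ) ^ x * dsc (m + 1) x
    set H0 := ∑ x ∈ Finset.range q, (-1 : ℤ) ^ x * dsc m x
    obtain ⟨t, ht⟩ := dvd_dsc m (q : ℤ)
    rw [Nat.factorial_succ]
    push_cast
    have h4 : (-2 : ℤ) ^ (m + 1) * H1 = (m + 1) * ((-2) ^ m * H0) - (q : ℤ) * ((-2) ^ m * t) := by
      have : 2 * H1 = - (m + 1) * H0 + q * t := by linarith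
      rw [pow_succ]
      linear_combination (-(-2) ^ m : ℤ) * this
    rw [h4]
    have h5 : ((m : ℤ) + 1) * (m.factorial : ℤ) ≡ (m + 1) * ((-2) ^ m * H0) [ZMOD q] := ih.mul_left _
    refine h5.trans ?_
    refine (Int.modEq_iff_dvd.2 ?_)
    exact ⟨-((-2) ^ m * t), by ring⟩

theorem gjw (q : ℕ) (hq : Odd q) : ∀ (n : ℕ) (s : ℕ) (b : Fin n → ℕ), Monotone b → (∀ j, b j ≤ n) →
    ∑ j, b j = s →
    (brd n b).permanent ≡
      (-2) ^ n * ∑ x ∈ Finset.range q, (-1 : ℤ) ^ x * ∏ j : Fin n, ((x : ℤ) + b j - (j : ℕ)) [ZMOD q] := by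
  intro n
  induction n with
  | zero =>
    intro s b _ _ _
    have := base_sum q hq 0
    simpa [dsc_zero_left, Matrix.permanent] using this
  | succ n ihn =>
    intro s
    induction s with
    | zero =>
      intro b hb hbn hs
      have hz : ∀ j, b j = 0 := by
        intro j
        exact (Finset.sum_eq_zero_iff.1 hs) j (Finset.mem_univ j)
      have h1 : (brd (n + 1) b).permanent = ((n + 1).factorial : ℤ) := by
        unfold Matrix.permanent brd
        simp [hz, Fintype.card_perm]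
      rw [h1]
      have h2 := base_sum q hq (n + 1)
      have h3 : ∀ x : ℕ, ∏ j : Fin (n + 1), ((x : ℤ) + b j - (j : ℕ)) = dsc (n + 1) x := by
        intro x
        simp only [hz, dsc]
        rw [Finset.prod_range]
        simp
      simp only [h3]
      exact h2
    | succ s ihs =>
      intro b hb hbn hs
      have hex : ∃ k : ℕ, ∃ h : k < n + 1, 1 ≤ b ⟨k, h⟩ := by
        by_contra hcon
        push Not at hcon
        have : ∑ j, b j = 0 := Finset.sum_eq_zero fun j _ => by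
          have := hcon j.1 j.2
          simpa using this
        omega
      classical
      obtain ⟨hlt, hge⟩ := Nat.find_spec hex
      set k := Nat.find hex with hk
      set i : Fin (n + 1) := ⟨k, hlt⟩ with hi
      have h0 : ∀ j < i, b j = 0 := by
        intro j hj
        have hj' : (j : ℕ) < Nat.find hex := hj
        have := Nat.find_min hex hj'
        by_contra hne
        exact this ⟨j.2, Nat.one_le_iff_ne_zero.2 hne⟩
      rw [brd_flip b i hb hge (hbn i) h0]
      have hmono' : Monotone (Function.update b i (b i - 1)) := by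
        intro x y hxy
        by_cases hx : x = i
        · by_cases hy : y = i
          · rw [hx, hy]
          · rw [hx, Function.update_self, Function.update_of_ne hy]
            have := hb hxy
            rw [hx] at this
            omega
        · rw [Function.update_of_ne hx]
          by_cases hy : y = i
          · have : b x = 0 := h0 x (lt_of_le_of_ne (hy ▸ hxy) hx)
            omega
          · rw [Function.update_of_ne hy]; exact hb hxy
      have hsum' : ∑ j, Function.update b i (b i - 1) j = s := by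
        have h1 := Finset.sum_update_of_mem (Finset.mem_univ i) b (b i - 1)
        have h2 : ∑ j, b j = b i + ∑ x ∈ Finset.univ \ {i}, b x := by
          rw [← Finset.add_sum_erase _ _ (Finset.mem_univ i), Finset.sdiff_singleton_eq_erase]
        rw [h1]; omega
      have hA := ihs (Function.update b i (b i - 1)) hmono' (fun j => by
        by_cases hj : j = i
        · rw [hj, Function.update_self]; exact le_trans (Nat.sub_le _ _) (hbn _)
        · rw [Function.update_of_ne hj]; exact hbn j) hsum'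
      have hB := ihn _ (fun j => b (i.succAbove j) - 1) (fun x y hxy => by
          have : b (i.succAbove x) ≤ b (i.succAbove y) := hb ((Fin.strictMono_succAbove i).monotone hxy)
          show b (i.succAbove x) - 1 ≤ b (i.succAbove y) - 1
          omega) (fun j => by
          have := hbn (i.succAbove j)
          show b (i.succAbove j) - 1 ≤ n
          omega) rfl
      have hC := hA.sub (hB.mul_left 2)
      refine hC.trans ?_
      have hprod : ∀ x : ℕ, ∏ j : Fin n, ((x : ℤ) + (b (i.succAbove j) - 1 : ℕ) - (j : ℕ))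
          = ∏ j : Fin n, ((x : ℤ) + b (i.succAbove j) - (i.succAbove j : ℕ)) := by
        intro x
        refine Finset.prod_congr rfl fun j _ => ?_
        rcases lt_or_ge (j.castSucc) i with hlt' | hge'
        · rw [Fin.succAbove_of_castSucc_lt _ _ hlt']
          rw [h0 _ hlt']; simp
        · rw [Fin.succAbove_of_le_castSucc _ _ hge']
          have : 1 ≤ b j.succ := le_trans hge (hb (le_trans hge' (Fin.castSucc_lt_succ).le))
          push_cast [Nat.cast_sub this]
          simp only [Fin.val_succ]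
          push_cast
          ring
      simp only [hprod]
      have hprod2 : ∀ x : ℕ, ∏ j : Fin (n + 1), ((x : ℤ) + b j - (j : ℕ))
          = ((x : ℤ) + b i - (i : ℕ)) * ∏ j : Fin n, ((x : ℤ) + b (i.succAbove j) - (i.succAbove j : ℕ)) :=
        fun x => Fin.prod_univ_succAbove _ i
      have hprod3 : ∀ x : ℕ, ∏ j : Fin (n + 1), ((x : ℤ) + (Function.update b i (b i - 1) j : ℕ) - (j : ℕ))
          = ((x : ℤ) + b i - 1 - (i : ℕ)) * ∏ j : Fin n, ((x : ℤ) + b (i.succAbove j) - (i.succAbove j : ℕ)) := by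
        intro x
        rw [Fin.prod_univ_succAbove _ i]
        congr 1
        · rw [Function.update_self]
          push_cast [Nat.cast_sub hge]
          ring
        · refine Finset.prod_congr rfl fun j _ => ?_
          rw [Function.update_of_ne (Fin.succAbove_ne i j)]
      simp only [hprod2, hprod3]
      refine (fun h => h ▸ Int.ModEq.refl _ : ∀ {a c : ℤ}, a = c → a ≡ c [ZMOD q]) ?_
      rw [pow_succ, Finset.mul_sum, Finset.mul_sum, Finset.mul_sum, Finset.mul_sum, ← Finset.sum_sub_distrib]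
      refine Finset.sum_congr rfl fun x _ => ?_
      ring


def hgt (m j : ℕ) : ℕ := min (j + j % 2) m

theorem prod_even (x : ℤ) (k : ℕ) :
    ∏ j ∈ Finset.range (2 * k), (x + ((j % 2 : ℕ) : ℤ)) = x ^ k * (x + 1) ^ k := by
  induction k with
  | zero => simp
  | succ k ih =>
    rw [show 2 * (k + 1) = 2 * k + 1 + 1 by ring, Finset.prod_range_succ, Finset.prod_range_succ, ih]
    have h1 : (2 * k) % 2 = 0 := by omega
    have h2 : (2 * k + 1) % 2 = 1 := by omega
    rw [h1, h2]
    push_cast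
    ring

theorem prod_even' (x : ℤ) (k : ℕ) :
    ∏ j ∈ Finset.range (2 * k), (x + 1 + (((j + 1) % 2 : ℕ) : ℤ)) = (x + 1) ^ k * (x + 2) ^ k := by
  induction k with
  | zero => simp
  | succ k ih =>
    rw [show 2 * (k + 1) = 2 * k + 1 + 1 by ring, Finset.prod_range_succ, Finset.prod_range_succ, ih]
    have h1 : (2 * k + 1) % 2 = 1 := by omega
    have h2 : (2 * k + 1 + 1) % 2 = 0 := by omega
    rw [h1, h2]
    push_cast
    ring

theorem fac (m k : ℕ) (hk : 4 * k + 2 ≤ m) (x : ℤ) :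
    ∏ j ∈ Finset.range m, (x + ((if j < 2 * k then hgt m j else hgt m (j + 1) : ℕ) : ℤ) - (j : ℤ))
      = x ^ k * (x + 1) ^ (k + (m / 2 - k) + m % 2) * (x + 2) ^ (m / 2 - k) := by
  obtain ⟨l, hl⟩ : ∃ l, m / 2 = k + l := ⟨m / 2 - k, by omega⟩
  have hl' : m / 2 - k = l := by omega
  have hm : m = 2 * k + (2 * l + m % 2) := by omega
  rw [hl']
  have hfirst : ∏ j ∈ Finset.range (2 * k),
      (x + ((if j < 2 * k then hgt m j else hgt m (j + 1) : ℕ) : ℤ) - (j : ℤ)) = x ^ k * (x + 1) ^ k := by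
    rw [← prod_even]
    refine Finset.prod_congr rfl fun j hj => ?_
    have hj' := Finset.mem_range.1 hj
    rw [if_pos hj']
    have : hgt m j = j + j % 2 := by unfold hgt; omega
    rw [this]; push_cast; ring
  have hsecond : ∏ j ∈ Finset.range (2 * l),
      (x + ((if 2 * k + j < 2 * k then hgt m (2 * k + j) else hgt m (2 * k + j + 1) : ℕ) : ℤ)
        - ((2 * k + j : ℕ) : ℤ)) = (x + 1) ^ l * (x + 2) ^ l := by
    rw [← prod_even']
    refine Finset.prod_congr rfl fun j hj => ?_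
    have hj' := Finset.mem_range.1 hj
    rw [if_neg (by omega)]
    have : hgt m (2 * k + j + 1) = 2 * k + j + 1 + (j + 1) % 2 := by unfold hgt; omega
    rw [this]; push_cast; ring
  have hsplit : ∏ j ∈ Finset.range m,
      (x + ((if j < 2 * k then hgt m j else hgt m (j + 1) : ℕ) : ℤ) - (j : ℤ))
      = (∏ j ∈ Finset.range (2 * k),
      (x + ((if j < 2 * k then hgt m j else hgt m (j + 1) : ℕ) : ℤ) - (j : ℤ))) *
      ∏ j ∈ Finset.range (2 * l + m % 2),
      (x + ((if 2 * k + j < 2 * k then hgt m (2 * k + j) else hgt m (2 * k + j + 1) : ℕ) : ℤ)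
        - ((2 * k + j : ℕ) : ℤ)) := by
    rw [← Finset.prod_range_add (fun j : ℕ =>
      (x + ((if j < 2 * k then hgt m j else hgt m (j + 1) : ℕ) : ℤ) - (j : ℤ))), ← hm]
  rw [hsplit, hfirst]
  rcases Nat.mod_two_eq_zero_or_one m with h0 | h1
  · rw [h0, add_zero, add_zero, hsecond]
    ring
  · rw [h1, Finset.prod_range_succ, hsecond, if_neg (by omega)]
    have : hgt m (2 * k + 2 * l + 1) = 2 * k + 2 * l + 1 := by unfold hgt; omega
    rw [this]
    push_cast
    ring

theorem sum_range_three (g : ℕ → ℤ) (M : ℕ) :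
    ∑ x ∈ Finset.range (3 * M), g x
      = ∑ y ∈ Finset.range M, (g (3 * y) + g (3 * y + 1) + g (3 * y + 2)) := by
  induction M with
  | zero => simp
  | succ M ih =>
    rw [show 3 * (M + 1) = 3 * M + 1 + 1 + 1 by ring, Finset.sum_range_succ, Finset.sum_range_succ,
      Finset.sum_range_succ, ih, Finset.sum_range_succ]
    ring

theorem alt_sum (M : ℕ) (hM : Odd M) :
    2 * ∑ y ∈ Finset.range M, (-1 : ℤ) ^ y * (y : ℤ) = (M : ℤ) - 1 := by
  obtain ⟨t, rfl⟩ := hM
  induction t with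
  | zero => simp
  | succ t ih =>
    rw [show 2 * (t + 1) + 1 = 2 * t + 1 + 1 + 1 by ring, Finset.sum_range_succ,
      Finset.sum_range_succ, mul_add, mul_add, ih]
    have h1 : (-1 : ℤ) ^ (2 * t + 1) = -1 := by
      rw [pow_succ, pow_mul]; simp
    have h2 : (-1 : ℤ) ^ (2 * t + 1 + 1) = 1 := by
      rw [pow_succ, h1]; simp
    rw [h1, h2]
    push_cast
    ring

theorem pow_odd_mod_three (y : ℤ) (k : ℕ) (hk : Odd k) : y ^ k ≡ y [ZMOD 3] := by
  obtain ⟨t, rfl⟩ := hk
  have h3 : y ^ 3 ≡ y [ZMOD 3] := by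
    have : y % 3 = 0 ∨ y % 3 = 1 ∨ y % 3 = 2 := by omega
    rcases this with h | h | h
    · have hy : y ≡ 0 [ZMOD 3] := h
      have h0 : (0 : ℤ) ^ 3 ≡ 0 [ZMOD 3] := by decide
      exact ((hy.pow 3).trans h0).trans hy.symm
    · have hy : y ≡ 1 [ZMOD 3] := h
      exact (hy.pow 3).trans (by simpa using hy.symm)
    · have hy : y ≡ 2 [ZMOD 3] := h
      have h8 : (2 : ℤ) ^ 3 ≡ 2 [ZMOD 3] := by decide
      exact ((hy.pow 3).trans h8).trans hy.symm
  induction t with
  | zero => simp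
  | succ t ih =>
    have : y ^ (2 * (t + 1) + 1) = y ^ (2 * t + 1) * y ^ 2 := by ring
    rw [this]
    refine (ih.mul_right _).trans ?_
    have : y * y ^ 2 = y ^ 3 := by ring
    rw [this]; exact h3

theorem main_sum (k b c : ℕ) (hk : Odd k) (hb : k + 1 ≤ b) (hc : k + 1 ≤ c) :
    ∑ x ∈ Finset.range (3 ^ (k + 1)), (-1 : ℤ) ^ x * ((x : ℤ) ^ k * ((x : ℤ) + 1) ^ b * ((x : ℤ) + 2) ^ c)
      ≡ 3 ^ k * (2 ^ c * ∑ y ∈ Finset.range (3 ^ k), (-1 : ℤ) ^ y * (y : ℤ)) [ZMOD 3 ^ (k + 1)] := by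
  have e0 : (3 : ℕ) ^ (k + 1) = 3 * 3 ^ k := pow_succ' 3 k
  have e0' : (3 : ℤ) ^ (k + 1) = 3 * 3 ^ k := pow_succ' 3 k
  rw [e0, e0', sum_range_three, Finset.mul_sum, Finset.mul_sum]
  refine Int.ModEq.sum fun y _ => ?_
  have e1 : (-1 : ℤ) ^ (3 * y) = (-1) ^ y := by
    rw [pow_mul]; norm_num
  have hA : (-1 : ℤ) ^ (3 * y) * (((3 * y : ℕ) : ℤ) ^ k * (((3 * y : ℕ) : ℤ) + 1) ^ b
      * (((3 * y : ℕ) : ℤ) + 2) ^ c) ≡ 3 ^ k * (2 ^ c * ((-1) ^ y * (y : ℤ))) [ZMOD 3 * 3 ^ k] := by
    rw [e1]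
    have h1 : (-1 : ℤ) ^ y * (((3 * y : ℕ) : ℤ) ^ k * (((3 * y : ℕ) : ℤ) + 1) ^ b
      * (((3 * y : ℕ) : ℤ) + 2) ^ c) = 3 ^ k * ((-1) ^ y * ((y : ℤ) ^ k * (3 * y + 1) ^ b * (3 * y + 2) ^ c)) := by
      push_cast
      rw [mul_pow]; ring
    rw [h1, mul_comm (3 : ℤ) (3 ^ k)]
    apply Int.ModEq.mul_left'
    have h2 : (y : ℤ) ^ k ≡ y [ZMOD 3] := pow_odd_mod_three _ k hk
    have h3 : (3 * (y : ℤ) + 1) ≡ 1 [ZMOD 3] := (Int.modEq_iff_dvd.2 ⟨-(y : ℤ), by ring⟩)
    have h4 : (3 * (y : ℤ) + 2) ≡ 2 [ZMOD 3] := (Int.modEq_iff_dvd.2 ⟨-(y : ℤ), by ring⟩)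
    have h5 := ((h2.mul (h3.pow b)).mul (h4.pow c)).mul_left ((-1) ^ y)
    refine h5.trans ?_
    rw [one_pow]
    have : (-1 : ℤ) ^ y * (y * 1 * 2 ^ c) = 2 ^ c * ((-1) ^ y * y) := by ring
    rw [this]
  have hB : (-1 : ℤ) ^ (3 * y + 1) * (((3 * y + 1 : ℕ) : ℤ) ^ k * (((3 * y + 1 : ℕ) : ℤ) + 1) ^ b
      * (((3 * y + 1 : ℕ) : ℤ) + 2) ^ c) ≡ 0 [ZMOD 3 * 3 ^ k] := by
    apply (Int.modEq_zero_iff_dvd).2
    have h1 : ((3 * y + 1 : ℕ) : ℤ) + 2 = 3 * (y + 1) := by push_cast; ring
    rw [h1, mul_pow]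
    have h2 : (3 * 3 ^ k : ℤ) ∣ 3 ^ c := by
      rw [← pow_succ']; exact pow_dvd_pow 3 hc
    exact Dvd.dvd.mul_left (Dvd.dvd.mul_left (Dvd.dvd.mul_right h2 _) _) _
  have hC : (-1 : ℤ) ^ (3 * y + 2) * (((3 * y + 2 : ℕ) : ℤ) ^ k * (((3 * y + 2 : ℕ) : ℤ) + 1) ^ b
      * (((3 * y + 2 : ℕ) : ℤ) + 2) ^ c) ≡ 0 [ZMOD 3 * 3 ^ k] := by
    apply (Int.modEq_zero_iff_dvd).2
    have h1 : ((3 * y + 2 : ℕ) : ℤ) + 1 = 3 * (y + 1) := by push_cast; ring
    rw [h1, mul_pow]
    have h2 : (3 * 3 ^ k : ℤ) ∣ 3 ^ b := by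
      rw [← pow_succ']; exact pow_dvd_pow 3 hb
    exact Dvd.dvd.mul_left (Dvd.dvd.mul_right (Dvd.dvd.mul_left (Dvd.dvd.mul_right h2 _) _) _) _
  have := (hA.add hB).add hC
  simpa using this

theorem not_three_dvd_two_pow (c : ℕ) : ¬ (3 : ℤ) ∣ 2 ^ c := by
  intro h
  have := Int.prime_three.dvd_of_dvd_pow h
  revert this; decide

theorem main_val (m k : ℕ) (hk : Odd k) (hm : 4 * k + 2 ≤ m) (p : ℤ)
    (hp : p ≡ (-2) ^ m * ∑ x ∈ Finset.range (3 ^ (k + 1)), (-1 : ℤ) ^ x *
      ∏ j ∈ Finset.range m, ((x : ℤ) + ((if j < 2 * k then hgt m j else hgt m (j + 1) : ℕ) : ℤ) - (j : ℤ))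
      [ZMOD ((3 ^ (k + 1) : ℕ) : ℤ)]) :
    (3 : ℤ) ^ k ∣ p ∧ ¬ (3 : ℤ) ^ (k + 1) ∣ p := by
  simp only [fac m k hm] at hp
  have h1 := main_sum k (k + (m / 2 - k) + m % 2) (m / 2 - k) hk (by omega) (by omega)
  have h2 := h1.mul_left ((-2) ^ m)
  push_cast at hp
  have h3 := hp.trans h2
  set S := ∑ y ∈ Finset.range (3 ^ k), (-1 : ℤ) ^ y * (y : ℤ) with hS
  have hSv : 2 * S = (3 : ℤ) ^ k - 1 := by
    have := alt_sum (3 ^ k) (Odd.pow (by decide))
    rw [← hS] at this
    push_cast at this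
    exact this
  have hS3 : ¬ (3 : ℤ) ∣ S := by
    rintro ⟨t, ht⟩
    have hk1 : 1 ≤ k := hk.pos
    obtain ⟨k', rfl⟩ : ∃ k', k = k' + 1 := ⟨k - 1, by omega⟩
    rw [ht, pow_succ'] at hSv
    omega
  set u : ℤ := (-2) ^ m * (2 ^ (m / 2 - k) * S) with hu
  have hu3 : ¬ (3 : ℤ) ∣ u := by
    intro h
    rcases Int.prime_three.dvd_or_dvd h with h | h
    · have := Int.prime_three.dvd_of_dvd_pow h
      revert this; decide
    · rcases Int.prime_three.dvd_or_dvd h with h | h
      · exact not_three_dvd_two_pow _ h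
      · exact hS3 h
  have h4 : p ≡ 3 ^ k * u [ZMOD 3 ^ (k + 1)] := by
    refine h3.trans ?_
    rw [hu]
    have : (-2 : ℤ) ^ m * (3 ^ k * (2 ^ (m / 2 - k) * S)) = 3 ^ k * ((-2) ^ m * (2 ^ (m / 2 - k) * S)) := by ring
    rw [this]
  obtain ⟨w, hw⟩ := (Int.modEq_iff_dvd.1 h4)
  have hp' : p = 3 ^ k * (u - 3 * w) := by
    rw [pow_succ] at hw; linear_combination -hw
  refine ⟨⟨_, hp'⟩, ?_⟩
  intro hd
  rw [hp', pow_succ] at hd
  have h5 : (3 : ℤ) ∣ u - 3 * w := (mul_dvd_mul_iff_left (by positivity)).1 hd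
  exact hu3 (by
    have h6 : (3 : ℤ) ∣ (u - 3 * w) + 3 * w := dvd_add h5 (Dvd.intro _ rfl)
    have h7 : (u - 3 * w) + 3 * w = u := by ring
    rwa [h7] at h6)


def full (m : ℕ) (ε : Fin (m + 1) → ℤ) : Matrix (Fin (m + 1)) (Fin (m + 1)) ℤ :=
  fun i j => Fin.cases (ε j) (fun i' : Fin m => if (i' : ℕ) < hgt m j then -1 else 1) i

def minr (m : ℕ) (j : Fin (m + 1)) : ℤ :=
  (brd m (fun j' => hgt m (j.succAbove j' : ℕ))).permanent

theorem full_per (m : ℕ) (ε : Fin (m + 1) → ℤ) :
    (full m ε).permanent = ∑ j, ε j * minr m j := by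
  rw [per_row_zero]
  refine Finset.sum_congr rfl fun j _ => ?_
  congr 1

theorem hgt_mono (m : ℕ) {i j : ℕ} (h : i ≤ j) : hgt m i ≤ hgt m j := by
  unfold hgt
  omega

theorem minr_val (m k : ℕ) (hk : Odd k) (hm : 4 * k + 2 ≤ m) (j : Fin (m + 1)) (hj : (j : ℕ) = 2 * k) :
    (3 : ℤ) ^ k ∣ minr m j ∧ ¬ (3 : ℤ) ^ (k + 1) ∣ minr m j := by
  apply main_val m k hk hm
  have h := gjw (3 ^ (k + 1)) (Odd.pow (by decide)) m _ (fun j' => hgt m (j.succAbove j' : ℕ))
    (fun a b hab => hgt_mono m ((Fin.strictMono_succAbove j).monotone hab))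
    (fun j' => by unfold hgt; exact min_le_right _ _) rfl
  refine h.trans ?_
  have hprod : ∀ x : ℕ, ∏ j' : Fin m, ((x : ℤ) + (hgt m (j.succAbove j' : ℕ) : ℕ) - ((j' : ℕ) : ℤ))
      = ∏ j' ∈ Finset.range m, ((x : ℤ) + ((if j' < 2 * k then hgt m j' else hgt m (j' + 1) : ℕ) : ℤ) - (j' : ℤ)) := by
    intro x
    rw [Finset.prod_range]
    refine Finset.prod_congr rfl fun j' _ => ?_
    by_cases hlt : (j' : ℕ) < 2 * k
    · rw [if_pos hlt, Fin.succAbove_of_castSucc_lt _ _ (by
        simp only [Fin.lt_def, Fin.val_castSucc]; omega)]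
      rfl
    · rw [if_neg hlt, Fin.succAbove_of_le_castSucc _ _ (by
        simp only [Fin.le_def, Fin.val_castSucc]; omega)]
      rfl
  simp only [hprod]
  exact Int.ModEq.refl _

/-- the sign pattern used on the variable row -/
def pat (m T : ℕ) (s : Fin T → Bool) (j : Fin (m + 1)) : ℤ :=
  if h : (j : ℕ) / 4 < T then
    (if (j : ℕ) % 4 = 2 then (if s ⟨(j : ℕ) / 4, h⟩ then 1 else -1) else 1) else 1

theorem pat_vals (m T : ℕ) (s : Fin T → Bool) (j : Fin (m + 1)) : pat m T s j = 1 ∨ pat m T s j = -1 := by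
  unfold pat
  split_ifs <;> simp

theorem pat_inj (m T : ℕ) (hm : 8 * T ≤ m + 2) :
    Function.Injective (fun s : Fin T → Bool => (full m (pat m T s)).permanent) := by
  intro s s' hss
  simp only [full_per] at hss
  by_contra hne
  have hex : ∃ t : ℕ, ∃ h : t < T, s ⟨t, h⟩ ≠ s' ⟨t, h⟩ := by
    by_contra hcon
    push Not at hcon
    exact hne (funext fun t => hcon t.1 t.2)
  classical
  obtain ⟨hlt, hdiff⟩ := Nat.find_spec hex
  have hmin : ∀ t, t < Nat.find hex → ∀ h : t < T, s ⟨t, h⟩ = s' ⟨t, h⟩ := by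
    intro t ht h
    by_contra hc
    exact Nat.find_min hex ht ⟨h, hc⟩
  generalize Nat.find hex = t at hlt hdiff hmin
  have hj0 : 4 * t + 2 < m + 1 := by omega
  set j0 : Fin (m + 1) := ⟨4 * t + 2, hj0⟩ with hj0d
  have hsum : ∑ j, (pat m T s j - pat m T s' j) * minr m j = 0 := by
    simp only [sub_mul, Finset.sum_sub_distrib]
    rw [hss, sub_self]
  rw [← Finset.add_sum_erase _ _ (Finset.mem_univ j0)] at hsum
  have hrest : (3 : ℤ) ^ (2 * t + 1 + 1) ∣
      ∑ j ∈ Finset.univ.erase j0, (pat m T s j - pat m T s' j) * minr m j := by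
    refine Finset.dvd_sum fun j hj => ?_
    have hj' := Finset.ne_of_mem_erase hj
    by_cases h1 : (j : ℕ) / 4 < T
    · by_cases h2 : (j : ℕ) % 4 = 2
      · by_cases h3 : (j : ℕ) / 4 < t
        · have := hmin _ h3 h1
          unfold pat
          rw [dif_pos h1, dif_pos h1, if_pos h2, if_pos h2, this, sub_self, zero_mul]
          exact dvd_zero _
        · have h4 : (j : ℕ) / 4 ≠ t := by
            intro h5
            apply hj'
            apply Fin.ext
            simp only [hj0d]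
            omega
          obtain ⟨hv, -⟩ := minr_val m (2 * ((j : ℕ) / 4) + 1) (odd_two_mul_add_one _) (by omega) j (by omega)
          refine Dvd.dvd.mul_left (dvd_trans (pow_dvd_pow 3 ?_) hv) _
          omega
      · unfold pat
        rw [dif_pos h1, dif_pos h1, if_neg h2, if_neg h2, sub_self, zero_mul]
        exact dvd_zero _
    · unfold pat
      rw [dif_neg h1, dif_neg h1, sub_self, zero_mul]
      exact dvd_zero _
  obtain ⟨-, hnv⟩ := minr_val m (2 * t + 1) (odd_two_mul_add_one _) (by omega) j0 (by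
    simp only [hj0d]; omega)
  have hfirst : (3 : ℤ) ^ (2 * t + 1 + 1) ∣ (pat m T s j0 - pat m T s' j0) * minr m j0 := by
    have h6 := (dvd_add_left hrest).1 (by rw [hsum]; exact dvd_zero _ :
      (3 : ℤ) ^ (2 * t + 1 + 1) ∣ (pat m T s j0 - pat m T s' j0) * minr m j0 +
        ∑ j ∈ Finset.univ.erase j0, (pat m T s j - pat m T s' j) * minr m j)
    exact h6
  have hcop : ∀ c : ℤ, (c = 2 ∨ c = -2) → (3 : ℤ) ^ (2 * t + 1 + 1) ∣ c * minr m j0 → False := by
    intro c hc hd
    apply hnv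
    have hco : IsCoprime ((3 : ℤ) ^ (2 * t + 1 + 1)) c := by
      apply IsCoprime.pow_left
      rcases hc with rfl | rfl
      · exact ⟨1, -1, by norm_num⟩
      · exact ⟨1, 1, by norm_num⟩
    exact hco.dvd_of_dvd_mul_left hd
  have h7 : (j0 : ℕ) / 4 = t := by simp only [hj0d]; omega
  have h8 : (j0 : ℕ) % 4 = 2 := by simp only [hj0d]; omega
  have h9 : (j0 : ℕ) / 4 < T := by omega
  refine hcop _ ?_ hfirst
  unfold pat
  rw [dif_pos h9, dif_pos h9, if_pos h8, if_pos h8]
  have h10 : (⟨(j0 : ℕ) / 4, h9⟩ : Fin T) = ⟨t, hlt⟩ := Fin.ext h7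
  rw [h10]
  revert hdiff
  cases s ⟨t, hlt⟩ <;> cases s' ⟨t, hlt⟩ <;> simp

theorem ncard_ge (m T : ℕ) (hm : 8 * T ≤ m + 2) :
    2 ^ T ≤ Set.ncard {p : ℤ | ∃ A : Matrix (Fin (m + 1)) (Fin (m + 1)) ℤ,
        (∀ i j, A i j = 1 ∨ A i j = -1) ∧ A.permanent = p} := by
  have hfin : Set.Finite {p : ℤ | ∃ A : Matrix (Fin (m + 1)) (Fin (m + 1)) ℤ,
        (∀ i j, A i j = 1 ∨ A i j = -1) ∧ A.permanent = p} := by
    have h1 : Set.Finite {A : Fin (m + 1) → Fin (m + 1) → ℤ | ∀ i, A i ∈ {v : Fin (m + 1) → ℤ |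
        ∀ j, v j ∈ ({1, -1} : Set ℤ)}} := by
      apply Set.Finite.pi'
      intro i
      apply Set.Finite.pi'
      intro j
      exact Set.toFinite _
    refine (h1.image (fun A : Fin (m + 1) → Fin (m + 1) → ℤ =>
      Matrix.permanent (A : Matrix (Fin (m + 1)) (Fin (m + 1)) ℤ))).subset ?_
    rintro p ⟨A, hA, rfl⟩
    exact ⟨A, fun i j => by simpa using hA i j, rfl⟩
  have hsub : Set.range (fun s : Fin T → Bool => (full m (pat m T s)).permanent) ⊆
      {p : ℤ | ∃ A : Matrix (Fin (m + 1)) (Fin (m + 1)) ℤ,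
        (∀ i j, A i j = 1 ∨ A i j = -1) ∧ A.permanent = p} := by
    rintro p ⟨s, rfl⟩
    refine ⟨full m (pat m T s), ?_, rfl⟩
    intro i j
    refine Fin.cases ?_ (fun i' => ?_) i
    · exact pat_vals m T s j
    · simp only [full, Fin.cases_succ]
      split_ifs <;> simp
  have hcard : Set.ncard (Set.range (fun s : Fin T → Bool => (full m (pat m T s)).permanent)) = 2 ^ T := by
    rw [← Set.image_univ, Set.ncard_image_of_injective _ (pat_inj m T hm), Set.ncard_univ]
    simp
  rw [← hcard]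
  exact Set.ncard_le_ncard hsub hfin

end Pool.Agent.MP_596cf1_co
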